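import Mathlib
import Pool.Agent.H2.CA1

open Pool.Agent.H2.CA Pool.Agent.H2.CA.A7

namespace Pool.Agent.Results.MP_52e257_al.ColorAlgebra

/-- an ideal containing a nonzero scalar is everything -/
theorem top_of_scalar (I : Submodule ℚ A7)
    (hI : ∀ a ∈ I, ∀ x : A7, x * a ∈ I ∧ a * x ∈ I) (s : ℝ) (hs : s ≠ 0)
    (h : mk s 0 0 0 0 0 0 ∈ I) : I = ⊤ := by
  rw [eq_top_iff]
  intro y _
  have h1 := (hI _ h (mk (s⁻¹ * y.t) (s⁻¹ * y.a) (s⁻¹ * y.b) (s⁻¹ * y.c) (s⁻¹ * y.p)
    (s⁻¹ * y.q) (s⁻¹ * y.r))).2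
  have h2 : mk s 0 0 0 0 0 0 * (mk (s⁻¹ * y.t) (s⁻¹ * y.a) (s⁻¹ * y.b) (s⁻¹ * y.c) (s⁻¹ * y.p)
    (s⁻¹ * y.q) (s⁻¹ * y.r)) = y := by
    have e : s * s⁻¹ = 1 := mul_inv_cancel₀ hs
    apply ext' <;> simp only [mul_t, mul_a, mul_b, mul_c, mul_p, mul_q, mul_r] <;>
      simp only [mk, A7.t, A7.a, A7.b, A7.c, A7.p, A7.q, A7.r]
    · linear_combination (y.1) * e
    · linear_combination (y.2.1.1) * e
    · linear_combination (y.2.1.2.1) * e
    · linear_combination (y.2.1.2.2) * e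
    · linear_combination (y.2.2.1) * e
    · linear_combination (y.2.2.2.1) * e
    · linear_combination (y.2.2.2.2) * e
  rw [h2] at h1
  exact h1

theorem half_mem (I : Submodule ℚ A7)
    (hI : ∀ a ∈ I, ∀ x : A7, x * a ∈ I ∧ a * x ∈ I) (x y w : A7) (hx : x ∈ I)
    (hw : w = mk (1/2) 0 0 0 0 0 0 * (x * y + y * x)) : w ∈ I := by
  rw [hw]
  exact (hI _ (I.add_mem (hI x hx y).2 (hI x hx y).1) _).1

/-- symmetric product with the first triple of basis vectors -/
theorem sym1 (I : Submodule ℚ A7)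
    (hI : ∀ a ∈ I, ∀ x : A7, x * a ∈ I ∧ a * x ∈ I) (x : A7) (hx : x ∈ I) (a b c : ℝ) :
    mk (x.p * a + x.q * b + x.r * c) (x.t * a) (x.t * b) (x.t * c) 0 0 0 ∈ I := by
  apply half_mem I hI x (mk 0 a b c 0 0 0) _ hx
  apply ext' <;> simp only [mul_t, mul_a, mul_b, mul_c, mul_p, mul_q, mul_r, add_t, add_a,
      add_b, add_c, add_p, add_q, add_r] <;>
      simp only [mk, A7.t, A7.a, A7.b, A7.c, A7.p, A7.q, A7.r] <;> ring

theorem sym2 (I : Submodule ℚ A7)
    (hI : ∀ a ∈ I, ∀ x : A7, x * a ∈ I ∧ a * x ∈ I) (x : A7) (hx : x ∈ I) (p q r : ℝ) :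
    mk (x.a * p + x.b * q + x.c * r) 0 0 0 (x.t * p) (x.t * q) (x.t * r) ∈ I := by
  apply half_mem I hI x (mk 0 0 0 0 p q r) _ hx
  apply ext' <;> simp only [mul_t, mul_a, mul_b, mul_c, mul_p, mul_q, mul_r, add_t, add_a,
      add_b, add_c, add_p, add_q, add_r] <;>
      simp only [mk, A7.t, A7.a, A7.b, A7.c, A7.p, A7.q, A7.r] <;> ring

theorem simple (I : Submodule ℚ A7)
    (hI : ∀ a ∈ I, ∀ x : A7, x * a ∈ I ∧ a * x ∈ I) : I = ⊥ ∨ I = ⊤ := by
  by_cases hbot : I = ⊥
  · exact Or.inl hbot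
  · right
    obtain ⟨x, hx, hx0⟩ := Submodule.exists_mem_ne_zero_of_ne_bot hbot
    by_cases ht : x.t = 0
    · -- one of the vector coordinates is nonzero
      by_contra hne
      have key : ∀ s : ℝ, mk s 0 0 0 0 0 0 ∈ I → s = 0 := by
        intro s hs
        by_contra hs0
        exact hne (top_of_scalar I hI s hs0 hs)
      have hp := sym1 I hI x hx 1 0 0
      have hq := sym1 I hI x hx 0 1 0
      have hr := sym1 I hI x hx 0 0 1
      have ha := sym2 I hI x hx 1 0 0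
      have hb := sym2 I hI x hx 0 1 0
      have hc := sym2 I hI x hx 0 0 1
      simp only [ht, mul_one, mul_zero, add_zero, zero_add, zero_mul] at hp hq hr ha hb hc
      apply hx0
      apply ext'
      · rw [ht]; rfl
      · rw [key _ ha]; rfl
      · rw [key _ hb]; rfl
      · rw [key _ hc]; rfl
      · rw [key _ hp]; rfl
      · rw [key _ hq]; rfl
      · rw [key _ hr]; rfl
    · have h1 := sym1 I hI x hx 1 0 0
      simp only [mul_one, mul_zero, add_zero, zero_add] at h1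
      by_cases hp : x.p = 0
      · have h2 := sym2 I hI _ h1 1 0 0
        rw [hp] at h2
        simp only [mk, A7.t, A7.a, A7.b, A7.c, A7.p, A7.q, A7.r, mul_one, mul_zero, add_zero,
          zero_add, zero_mul] at h2
        exact top_of_scalar I hI x.t ht h2
      · have h2 := sym2 I hI _ h1 0 1 0
        simp only [mk, A7.t, A7.a, A7.b, A7.c, A7.p, A7.q, A7.r, mul_one, mul_zero, add_zero,
          zero_add, zero_mul] at h2
        have h3 := sym1 I hI _ h2 0 1 0
        simp only [mk, A7.t, A7.a, A7.b, A7.c, A7.p, A7.q, A7.r, mul_one, mul_zero, add_zero,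
          zero_add, zero_mul] at h3
        exact top_of_scalar I hI x.p hp h3

theorem not_finite : ¬ Module.Finite ℚ A7 := by
  intro h
  have hs : Function.Surjective (LinearMap.fst ℚ ℝ ((ℝ × ℝ × ℝ) × (ℝ × ℝ × ℝ))) :=
    LinearMap.fst_surjective
  have h' : Module.Finite ℚ (ℝ × (ℝ × ℝ × ℝ) × (ℝ × ℝ × ℝ)) := h
  have h2 : Module.Finite ℚ ℝ := Module.Finite.of_surjective _ hs
  have h3 := Module.rank_lt_aleph0 ℚ ℝ
  rw [Real.rank_rat_real] at h3
  exact absurd h3 (not_lt.mpr Cardinal.aleph0_le_continuum)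

/-- There are a field `F` and a simple infinite-dimensional noncommutative Jordan `F`-algebra
satisfying `([x,y],y,y) = 0` which is neither alternative nor Jordan. -/
theorem result : ∃ (F : Type) (_ : Field F) (A : Type) (_ : NonUnitalNonAssocRing A)
    (_ : Module F A) (_ : IsScalarTower F A A) (_ : SMulCommClass F A A),
    -- infinite-dimensional over `F`
    ¬ Module.Finite F A ∧
    -- simple: `A² ≠ 0` and the only two-sided ideals are `0` and `A`
    (∃ x y : A, x * y ≠ 0) ∧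
    (∀ I : Submodule F A, (∀ a ∈ I, ∀ x : A, x * a ∈ I ∧ a * x ∈ I) → I = ⊥ ∨ I = ⊤) ∧
    -- flexible
    (∀ x y : A, (x * y) * x - x * (y * x) = 0) ∧
    -- the Jordan identity
    (∀ x y : A, ((x * x) * y) * x - (x * x) * (y * x) = 0) ∧
    -- the identity `([x,y],y,y) = 0`
    (∀ x y : A, ((x * y - y * x) * y) * y - (x * y - y * x) * (y * y) = 0) ∧
    -- not alternative
    ¬ (∀ x y : A, (x * x) * y - x * (x * y) = 0 ∧ (y * x) * x - y * (x * x) = 0) ∧
    -- not commutative, in particular not a Jordan algebra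
    ¬ (∀ x y : A, x * y = y * x) := by
  refine ⟨ℚ, inferInstance, A7, inferInstance, inferInstance, inferInstance, inferInstance,
    not_finite, ⟨mk 1 0 0 0 0 0 0, mk 1 0 0 0 0 0 0, ?_⟩, simple, ?_, ?_, ?_, ?_, ?_⟩
  · intro h
    have h1 := congrArg A7.t h
    rw [mul_t] at h1
    simp only [mk, A7.t, A7.a, A7.b, A7.c, A7.p, A7.q, A7.r] at h1
    have h2 : (0 : A7).1 = (0 : ℝ) := rfl
    rw [h2] at h1
    norm_num at h1
  · intro x y
    rw [flexible, sub_self]
  · intro x y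
    rw [jordan, sub_self]
  · intro x y
    rw [ident, sub_self]
  · intro h
    have h1 := (h (mk 0 1 0 0 1 0 0) (mk 0 1 0 0 0 0 0)).1
    have h2 := congrArg A7.p h1
    rw [sub_p] at h2
    simp only [mul_t, mul_a, mul_b, mul_c, mul_p, mul_q, mul_r] at h2
    rw [zero_p] at h2
    simp only [mk, A7.t, A7.a, A7.b, A7.c, A7.p, A7.q, A7.r] at h2
    norm_num at h2
  · intro h
    have h1 := h (mk 0 1 0 0 0 0 0) (mk 0 0 1 0 0 0 0)
    have h2 := congrArg A7.r h1
    simp only [mul_t, mul_a, mul_b, mul_c, mul_p, mul_q, mul_r] at h2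
    simp only [mk, A7.t, A7.a, A7.b, A7.c, A7.p, A7.q, A7.r] at h2
    norm_num at h2

end Pool.Agent.Results.MP_52e257_al.ColorAlgebra
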